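import Mathlib
import Pool.Agent.MP_0a7e48_nt.H75.Main

namespace Pool.Agent.Results.MP_0a7e48_nt.EveryLength

open Pool.Agent.MP_0a7e48_nt.H35

/-- For every odd-length sequence `Q` of positive integers and every large last entry `a`, the
ratio of the counts for `P = Q ++ [a]` and its cyclic shift does not tend to the ratio of the
Gauss-Kuzmin frequencies. -/
theorem result (Q : List ℕ) (hQ : ∀ x ∈ Q, 1 ≤ x) (hodd : Odd Q.length) :
    ∃ A : ℕ, ∀ a : ℕ, A ≤ a →
      ¬ Filter.Tendsto
        (fun N : ℕ => (count N (Q ++ [a]) : ℝ) / (count N ((Q ++ [a]).rotate 1) : ℝ))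
        Filter.atTop (nhds (GK Q / GK ((Q ++ [a]).rotate 1).dropLast)) := by
  cases Q with
  | nil => simp at hodd
  | cons a₁ l =>
    have he : Even l.length := by
      rw [List.length_cons] at hodd
      exact Nat.not_odd_iff_even.mp (Nat.odd_add_one.mp hodd)
    obtain ⟨A, hA⟩ := Pool.Agent.MP_0a7e48_nt.H75.main a₁ l (hQ _ List.mem_cons_self)
      (fun x hx => hQ x (List.mem_cons_of_mem _ hx)) he
    refine ⟨A, fun a ha => ?_⟩
    have e : (a₁ :: l ++ [a]).rotate 1 = (l ++ [a]) ++ [a₁] := by
      rw [List.cons_append, List.rotate_cons_succ, List.rotate_zero]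
    rw [e, List.dropLast_concat, show (l ++ [a]) ++ [a₁] = l ++ [a, a₁] by simp]
    exact hA a ha

end Pool.Agent.Results.MP_0a7e48_nt.EveryLength
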